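import Mathlib

/-!
# Choice of the slope (job 4110, NW-2)
-/

set_option autoImplicit false

namespace Pool.Agent.TH73.NW

theorem exists_param (P : ℕ) (hP : 2 ≤ P) : ∃ N0 : ℕ, ∀ n : ℕ, N0 ≤ n → ¬ IsSquare n →
    ∃ (K δ : ℝ) (y : ℕ), K = 9 * P - 1 + 1 / P + δ ∧ 0 ≤ δ ∧ δ * P ^ 2 ≤ 1 ∧
      (K ^ 2 / 9 + y) ^ 2 = n * (K ^ 2 / 9) ∧ Irrational K := by
  refine ⟨(3 * P ^ 2 * (1 + 9 * P ^ 2)) ^ 2, fun n hn hsq => ?_⟩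
  have hP' : (2 : ℝ) ≤ P := by exact_mod_cast hP
  have hP0 : (0 : ℝ) < P := by linarith
  obtain ⟨s, hs⟩ : ∃ s : ℝ, s = √(n : ℝ) := ⟨_, rfl⟩
  have hs2 : s ^ 2 = n := by rw [hs]; exact Real.sq_sqrt (Nat.cast_nonneg n)
  have hsn : 3 * (P : ℝ) ^ 2 * (1 + 9 * P ^ 2) ≤ s := by
    rw [hs]
    apply Real.le_sqrt_of_sq_le
    exact_mod_cast hn
  obtain ⟨K0, hK0⟩ : ∃ K0 : ℝ, K0 = 9 * P - 1 + 1 / P := ⟨_, rfl⟩
  have hPi : 0 < 1 / (P : ℝ) := by positivity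
  have hPi2 : 1 / (P : ℝ) ≤ 1 / 2 := one_div_le_one_div_of_le (by norm_num) hP'
  have hPP : 0 < 1 / (P : ℝ) ^ 2 := by positivity
  have hPP2 : 1 / (P : ℝ) ^ 2 ≤ 1 / 4 := by
    apply one_div_le_one_div_of_le (by norm_num)
    nlinarith
  have hK0pos : 0 < K0 := by rw [hK0]; linarith
  have hK1 : K0 + 1 / (P : ℝ) ^ 2 ≤ 9 * P := by rw [hK0]; linarith
  -- the function
  obtain ⟨g, hg⟩ : ∃ g : ℝ → ℝ, g = fun K => s * K / 3 - K ^ 2 / 9 := ⟨_, rfl⟩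
  have hgc : Continuous g := by
    rw [hg]
    fun_prop
  have hP2 : (0 : ℝ) < P ^ 2 := by positivity
  have hg0 : 0 ≤ g K0 := by
    rw [hg]
    simp only
    have h1 : K0 / 3 ≤ s := by
      have h2 : K0 ≤ 9 * P := by linarith
      have h3 : (P : ℝ) ≤ P ^ 2 := by nlinarith
      nlinarith
    have : s * K0 / 3 - K0 ^ 2 / 9 = K0 / 3 * (s - K0 / 3) := by ring
    rw [this]
    exact mul_nonneg (by positivity) (by linarith)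
  have hstep : g K0 + 1 ≤ g (K0 + 1 / (P : ℝ) ^ 2) := by
    rw [hg]
    simp only
    obtain ⟨u, hu⟩ : ∃ u : ℝ, u = 1 / (P : ℝ) ^ 2 := ⟨_, rfl⟩
    rw [← hu] at hK1 hPP hPP2 ⊢
    have hu1 : u * (P : ℝ) ^ 2 = 1 := by rw [hu]; field_simp
    -- `s u ≥ 3 (1 + 9 P ^ 2)`
    have h1 : 3 * (1 + 9 * (P : ℝ) ^ 2) ≤ s * u := by
      calc 3 * (1 + 9 * (P : ℝ) ^ 2) = (3 * (P : ℝ) ^ 2 * (1 + 9 * P ^ 2)) * u := by
            linear_combination (-(3 * (1 + 9 * (P : ℝ) ^ 2))) * hu1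
        _ ≤ s * u := mul_le_mul_of_nonneg_right hsn hPP.le
    have h2 : (K0 + u) ^ 2 - K0 ^ 2 ≤ 81 * (P : ℝ) ^ 2 := by
      have h3 : 0 ≤ K0 + u := by linarith
      have h4 : (K0 + u) ^ 2 ≤ (9 * (P : ℝ)) ^ 2 := pow_le_pow_left₀ h3 hK1 2
      nlinarith [sq_nonneg K0]
    have h5 : s * (K0 + u) / 3 = s * K0 / 3 + s * u / 3 := by ring
    rw [h5]
    linarith
  -- the natural value
  have hy1 : g K0 ≤ (⌈g K0⌉₊ : ℝ) := Nat.le_ceil _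
  have hy2 : (⌈g K0⌉₊ : ℝ) ≤ g (K0 + 1 / (P : ℝ) ^ 2) :=
    (Nat.ceil_lt_add_one hg0).le.trans hstep
  obtain ⟨K, ⟨hKa, hKb⟩, hKg⟩ := intermediate_value_Icc
    (by linarith : K0 ≤ K0 + 1 / (P : ℝ) ^ 2) hgc.continuousOn ⟨hy1, hy2⟩
  have hKpos : 0 < K := lt_of_lt_of_le hK0pos hKa
  have hmain : K ^ 2 / 9 + (⌈g K0⌉₊ : ℝ) = s * K / 3 := by
    rw [← hKg, hg]
    ring
  refine ⟨K, K - K0, ⌈g K0⌉₊, ?_, by linarith, ?_, ?_, ?_⟩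
  · rw [hK0]; ring
  · have : K - K0 ≤ 1 / (P : ℝ) ^ 2 := by linarith
    calc (K - K0) * (P : ℝ) ^ 2 ≤ 1 / (P : ℝ) ^ 2 * (P : ℝ) ^ 2 :=
          mul_le_mul_of_nonneg_right this hP2.le
      _ = 1 := by field_simp
  · rw [hmain, ← hs2]
    ring
  · intro hrat
    have hirr : Irrational (√(n : ℝ)) := irrational_sqrt_natCast_iff.2 hsq
    apply hirr
    obtain ⟨q, hq⟩ := hrat
    refine ⟨3 * (q ^ 2 / 9 + (⌈g K0⌉₊ : ℚ)) / q, ?_⟩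
    push_cast
    rw [hq, hmain, ← hs]
    field_simp

end Pool.Agent.TH73.NW
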